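import Pool.Agent.Helper20.IIC.Stmts

set_option autoImplicit false
set_option linter.unusedSectionVars false

/-! # (MMSA) the inequality of Messager and Miracle-Solé -/

namespace IIC

open scoped BigOperators

variable {V : Type}

/-- the spin as a real number -/
noncomputable def mm_s (σ : V → ℤˣ) (v : V) : ℝ := ((σ v : ℤ) : ℝ)

theorem mm_s_sq (σ : V → ℤˣ) (v : V) : mm_s σ v = 1 ∨ mm_s σ v = -1 := by
  unfold mm_s
  rcases Int.units_eq_one_or (σ v) with h | h
  · left; rw [h]; simp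
  · right; rw [h]; simp

theorem mm_two (σ : V → ℤˣ) (x y : V) : two x y σ = mm_s σ x * mm_s σ y := by
  unfold two mm_s
  push_cast
  rfl

noncomputable def mm_p (θ : V → V) (σ : V → ℤˣ) (v : V) : ℝ := mm_s σ v + mm_s σ (θ v)

noncomputable def mm_q (θ : V → V) (σ : V → ℤˣ) (v : V) : ℝ := mm_s σ v - mm_s σ (θ v)

/-- polynomials in `p` and `q` with nonnegative coefficients -/
inductive mm_C [Fintype V] (θ : V → V) (P : Set V) : ((V → ℤˣ) → ℝ) → Prop
  | mono (c : ℝ) (hc : 0 ≤ c) (m n : V → ℕ) (hm : ∀ v, v ∉ P → m v = 0 ∧ n v = 0) :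
      mm_C θ P (fun σ => c * ∏ v, (mm_p θ σ v ^ m v * mm_q θ σ v ^ n v))
  | add (F G : (V → ℤˣ) → ℝ) (hF : mm_C θ P F) (hG : mm_C θ P G) :
      mm_C θ P (fun σ => F σ + G σ)

section

variable [Fintype V] [DecidableEq V] {θ : V → V} {P : Set V}

theorem mm_congr {F G : (V → ℤˣ) → ℝ} (hF : mm_C θ P F) (h : ∀ σ, F σ = G σ) : mm_C θ P G := by
  have : F = G := funext h
  rwa [← this]

theorem mm_mul {F G : (V → ℤˣ) → ℝ} (hF : mm_C θ P F) (hG : mm_C θ P G) :
    mm_C θ P (fun σ => F σ * G σ) := by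
  induction hF with
  | mono c hc m n hm =>
    induction hG with
    | mono c' hc' m' n' hm' =>
      refine mm_congr (mm_C.mono (c * c') (mul_nonneg hc hc') (fun v => m v + m' v)
        (fun v => n v + n' v) ?_) ?_
      · intro v hv
        have h1 := hm v hv
        have h2 := hm' v hv
        omega
      · intro σ
        have : ∏ v, (mm_p θ σ v ^ (m v + m' v) * mm_q θ σ v ^ (n v + n' v)) =
            (∏ v, (mm_p θ σ v ^ m v * mm_q θ σ v ^ n v)) *
              ∏ v, (mm_p θ σ v ^ m' v * mm_q θ σ v ^ n' v) := by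
          rw [← Finset.prod_mul_distrib]
          refine Finset.prod_congr rfl fun v _ => ?_
          rw [pow_add, pow_add]
          ring
        rw [this]
        ring
    | add F' G' _ _ ih1 ih2 =>
      refine mm_congr (mm_C.add _ _ ih1 ih2) ?_
      intro σ
      ring
  | add F' G' _ _ ih1 ih2 =>
    refine mm_congr (mm_C.add _ _ ih1 ih2) ?_
    intro σ
    ring

theorem mm_const {c : ℝ} (hc : 0 ≤ c) : mm_C θ P (fun _ => c) := by
  refine mm_congr (mm_C.mono c hc (fun _ => 0) (fun _ => 0) (fun _ _ => ⟨rfl, rfl⟩)) ?_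
  intro σ
  simp

theorem mm_pC {a : V} (ha : a ∈ P) : mm_C θ P (fun σ => mm_p θ σ a) := by
  refine mm_congr (mm_C.mono 1 zero_le_one (fun v => if v = a then 1 else 0) (fun _ => 0) ?_) ?_
  · intro v hv
    refine ⟨if_neg ?_, rfl⟩
    rintro rfl
    exact hv ha
  · intro σ
    simp only [pow_zero, mul_one, one_mul]
    rw [Finset.prod_eq_single a]
    · simp
    · intro b _ hb
      rw [if_neg hb, pow_zero]
    · intro h
      exact absurd (Finset.mem_univ a) h

theorem mm_qC {a : V} (ha : a ∈ P) : mm_C θ P (fun σ => mm_q θ σ a) := by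
  refine mm_congr (mm_C.mono 1 zero_le_one (fun _ => 0) (fun v => if v = a then 1 else 0) ?_) ?_
  · intro v hv
    refine ⟨rfl, if_neg ?_⟩
    rintro rfl
    exact hv ha
  · intro σ
    simp only [pow_zero, one_mul]
    rw [Finset.prod_eq_single a]
    · simp
    · intro b _ hb
      rw [if_neg hb, pow_zero]
    · intro h
      exact absurd (Finset.mem_univ a) h

/-- exponential of a variable with values `0, 4, -4` -/
theorem mm_exp {c X : ℝ} (h : X = 0 ∨ X = 4 ∨ X = -4) :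
    Real.exp (c * X) = 1 + Real.sinh (4 * c) / 4 * X + (Real.cosh (4 * c) - 1) / 16 * (X * X) := by
  rcases h with h | h | h
  · rw [h]; simp
  · rw [h, mul_comm c 4, ← Real.cosh_add_sinh]; ring
  · rw [h, show c * (-4) = -(4 * c) by ring, ← Real.cosh_sub_sinh]; ring

theorem mm_expC {c : ℝ} (hc : 0 ≤ c) {X : (V → ℤˣ) → ℝ} (hX : mm_C θ P X)
    (h : ∀ σ, X σ = 0 ∨ X σ = 4 ∨ X σ = -4) : mm_C θ P (fun σ => Real.exp (c * X σ)) := by
  have h1 : 0 ≤ Real.sinh (4 * c) / 4 :=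
    div_nonneg (Real.sinh_nonneg_iff.2 (by linarith)) (by norm_num)
  have h2 : 0 ≤ (Real.cosh (4 * c) - 1) / 16 :=
    div_nonneg (by linarith [Real.one_le_cosh (4 * c)]) (by norm_num)
  refine mm_congr (mm_C.add _ _ (mm_C.add _ _ (mm_const zero_le_one) (mm_mul (mm_const h1) hX))
    (mm_mul (mm_const h2) (mm_mul hX hX))) ?_
  intro σ
  rw [mm_exp (h σ)]

/-- flip the spins at `v` and `θ v` -/
def mm_flip (θ : V → V) (v : V) (σ : V → ℤˣ) : V → ℤˣ := fun u =>
  if u = v ∨ u = θ v then -σ u else σ u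

/-- exchange the spins at `v` and `θ v` -/
def mm_swap (θ : V → V) (v : V) (σ : V → ℤˣ) : V → ℤˣ := fun u =>
  if u = v ∨ u = θ v then σ (θ u) else σ u

theorem mm_flip_flip (v : V) (σ : V → ℤˣ) : mm_flip θ v (mm_flip θ v σ) = σ := by
  funext u
  unfold mm_flip
  split_ifs <;> simp

theorem mm_mem (hθ : ∀ v, θ (θ v) = v) (u v : V) : (θ u = v ∨ θ u = θ v) ↔ (u = v ∨ u = θ v) := by
  constructor
  · rintro (h | h)
    · right; rw [← h, hθ]
    · left; rw [← hθ u, h, hθ]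
  · rintro (h | h)
    · right; rw [h]
    · left; rw [h, hθ]

theorem mm_swap_swap (hθ : ∀ v, θ (θ v) = v) (v : V) (σ : V → ℤˣ) :
    mm_swap θ v (mm_swap θ v σ) = σ := by
  funext u
  unfold mm_swap
  by_cases h : u = v ∨ u = θ v
  · rw [if_pos h, if_pos ((mm_mem hθ u v).2 h), hθ]
  · rw [if_neg h, if_neg h]

/-- positive functions which are invariant under flips and swaps -/
def mm_H (θ : V → V) (H : (V → ℤˣ) → ℝ) : Prop :=
  (∀ σ, 0 ≤ H σ) ∧ (∀ v σ, H (mm_flip θ v σ) = H σ) ∧ ∀ v σ, H (mm_swap θ v σ) = H σ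

theorem mm_flip_s (v : V) (σ : V → ℤˣ) (u : V) :
    mm_s (mm_flip θ v σ) u = if u = v ∨ u = θ v then -mm_s σ u else mm_s σ u := by
  unfold mm_s mm_flip
  split_ifs <;> simp

theorem mm_swap_s (v : V) (σ : V → ℤˣ) (u : V) :
    mm_s (mm_swap θ v σ) u = if u = v ∨ u = θ v then mm_s σ (θ u) else mm_s σ u := by
  unfold mm_s mm_swap
  split_ifs <;> simp

theorem mm_sum_inv (φ : (V → ℤˣ) → (V → ℤˣ)) (hφ : ∀ σ, φ (φ σ) = σ) (F : (V → ℤˣ) → ℝ) :
    ∑ σ, F (φ σ) = ∑ σ, F σ :=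
  Equiv.sum_comp (⟨φ, φ, hφ, hφ⟩ : (V → ℤˣ) ≃ (V → ℤˣ)) F

theorem mm_sum_odd (φ : (V → ℤˣ) → (V → ℤˣ)) (hφ : ∀ σ, φ (φ σ) = σ) (F : (V → ℤˣ) → ℝ)
    (h : ∀ σ, F (φ σ) = -F σ) : ∑ σ, F σ = 0 := by
  have h1 := mm_sum_inv φ hφ F
  have h2 : ∑ σ, F (φ σ) = -∑ σ, F σ := by
    rw [← Finset.sum_neg_distrib]
    exact Finset.sum_congr rfl fun σ _ => h σ
  linarith

theorem mm_flip_pq (hθ : ∀ v, θ (θ v) = v) (v : V) (σ : V → ℤˣ) (u : V) :
    mm_p θ (mm_flip θ v σ) u = (if u = v ∨ u = θ v then -1 else 1) * mm_p θ σ u ∧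
    mm_q θ (mm_flip θ v σ) u = (if u = v ∨ u = θ v then -1 else 1) * mm_q θ σ u := by
  unfold mm_p mm_q
  rw [mm_flip_s, mm_flip_s]
  by_cases h : u = v ∨ u = θ v
  · rw [if_pos h, if_pos ((mm_mem hθ u v).2 h), if_pos h]
    constructor <;> ring
  · rw [if_neg h, if_neg (fun hc => h ((mm_mem hθ u v).1 hc)), if_neg h]
    constructor <;> ring

theorem mm_swap_pq (hθ : ∀ v, θ (θ v) = v) (v : V) (σ : V → ℤˣ) (u : V) :
    mm_p θ (mm_swap θ v σ) u = mm_p θ σ u ∧
    mm_q θ (mm_swap θ v σ) u = (if u = v ∨ u = θ v then -1 else 1) * mm_q θ σ u := by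
  unfold mm_p mm_q
  rw [mm_swap_s, mm_swap_s]
  by_cases h : u = v ∨ u = θ v
  · rw [if_pos h, if_pos ((mm_mem hθ u v).2 h), if_pos h, hθ]
    constructor <;> ring
  · rw [if_neg h, if_neg (fun hc => h ((mm_mem hθ u v).1 hc)), if_neg h]
    constructor <;> ring

theorem mm_prod_sign {m n : V → ℕ} (v : V) (hv : v ∈ P)
    (hP : ∀ u ∈ P, (u = v ∨ u = θ v) → u = v)
    (hm : ∀ u, u ∉ P → m u = 0 ∧ n u = 0) (f g : V → ℝ) (f' g' : V → ℝ)
    (a b : ℝ) (h1 : ∀ u, f' u = (if u = v ∨ u = θ v then a else 1) * f u)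
    (h2 : ∀ u, g' u = (if u = v ∨ u = θ v then b else 1) * g u) :
    ∏ u, (f' u ^ m u * g' u ^ n u) = a ^ m v * b ^ n v * ∏ u, (f u ^ m u * g u ^ n u) := by
  have key : ∀ u, f' u ^ m u * g' u ^ n u =
      (if u = v then a ^ m v * b ^ n v else 1) * (f u ^ m u * g u ^ n u) := by
    intro u
    by_cases hu : u ∈ P
    · by_cases huv : u = v
      · subst huv
        rw [h1, h2, if_pos (Or.inl rfl), if_pos (Or.inl rfl), if_pos rfl, mul_pow, mul_pow]
        ring
      · have : ¬ (u = v ∨ u = θ v) := fun h => huv (hP u hu h)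
        rw [h1, h2, if_neg this, if_neg this, if_neg huv, one_mul, one_mul, one_mul]
    · have h3 := hm u hu
      have huv : u ≠ v := by
        rintro rfl
        exact hu hv
      rw [h3.1, h3.2, if_neg huv]
      simp
  rw [Finset.prod_congr rfl fun u _ => key u, Finset.prod_mul_distrib, Finset.prod_ite_eq']
  simp

theorem mm_pos (hθ : ∀ v, θ (θ v) = v) (hP : ∀ v ∈ P, θ v ∈ P → θ v = v)
    {F : (V → ℤˣ) → ℝ} (hF : mm_C θ P F) {H : (V → ℤˣ) → ℝ} (hH : mm_H θ H) :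
    0 ≤ ∑ σ, F σ * H σ := by
  induction hF with
  | add F G _ _ ih1 ih2 =>
    simp only [add_mul, Finset.sum_add_distrib]
    exact add_nonneg ih1 ih2
  | mono c hc m n hm =>
    obtain ⟨H0, H1, H2⟩ := hH
    have hPv : ∀ v ∈ P, ∀ u ∈ P, (u = v ∨ u = θ v) → u = v := by
      rintro v hv u hu (h | h)
      · exact h
      · rw [h] at hu ⊢
        exact hP v hv hu
    by_cases h1 : ∀ v, Even (n v)
    · by_cases h2 : ∀ v, Even (m v)
      · refine Finset.sum_nonneg fun σ _ => mul_nonneg (mul_nonneg hc ?_) (H0 σ)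
        refine Finset.prod_nonneg fun v _ => mul_nonneg (Even.pow_nonneg (h2 v) _)
          (Even.pow_nonneg (h1 v) _)
      · push Not at h2
        obtain ⟨v, hv⟩ := h2
        have hvP : v ∈ P := by
          by_contra hcon
          rw [(hm v hcon).1] at hv
          exact absurd hv (by decide)
        have key : ∀ σ, ∏ u, (mm_p θ (mm_flip θ v σ) u ^ m u * mm_q θ (mm_flip θ v σ) u ^ n u) =
            (-1) ^ m v * (-1) ^ n v * ∏ u, (mm_p θ σ u ^ m u * mm_q θ σ u ^ n u) := fun σ =>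
          mm_prod_sign (θ := θ) v hvP (hPv v hvP) hm (mm_p θ σ) (mm_q θ σ) _ _ (-1) (-1)
            (fun u => (mm_flip_pq hθ v σ u).1) (fun u => (mm_flip_pq hθ v σ u).2)
        refine le_of_eq (Eq.symm (mm_sum_odd (mm_flip θ v) (mm_flip_flip v) _ ?_))
        intro σ
        change c * _ * _ = -(c * _ * _)
        rw [H1, key σ, Odd.neg_one_pow (Nat.not_even_iff_odd.1 hv), Even.neg_one_pow (h1 v)]
        ring
    · push Not at h1
      obtain ⟨v, hv⟩ := h1
      have hvP : v ∈ P := by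
        by_contra hcon
        rw [(hm v hcon).2] at hv
        exact absurd hv (by decide)
      have key : ∀ σ, ∏ u, (mm_p θ (mm_swap θ v σ) u ^ m u * mm_q θ (mm_swap θ v σ) u ^ n u) =
          1 ^ m v * (-1) ^ n v * ∏ u, (mm_p θ σ u ^ m u * mm_q θ σ u ^ n u) := fun σ =>
        mm_prod_sign (θ := θ) v hvP (hPv v hvP) hm (mm_p θ σ) (mm_q θ σ)
          (mm_p θ (mm_swap θ v σ)) _ 1 (-1)
          (fun u => by rw [(mm_swap_pq hθ v σ u).1]; simp) (fun u => (mm_swap_pq hθ v σ u).2)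
      refine le_of_eq (Eq.symm (mm_sum_odd (mm_swap θ v) (mm_swap_swap hθ v) _ ?_))
      intro σ
      change c * _ * _ = -(c * _ * _)
      rw [H2, key σ, Odd.neg_one_pow (Nat.not_even_iff_odd.1 hv), one_pow]
      ring

theorem mm_H_mul {G H : (V → ℤˣ) → ℝ} (hG : mm_H θ G) (hH : mm_H θ H) :
    mm_H θ (fun σ => G σ * H σ) :=
  ⟨fun σ => mul_nonneg (hG.1 σ) (hH.1 σ), fun v σ => by
      change G _ * H _ = G _ * H _
      rw [hG.2.1, hH.2.1],
    fun v σ => by
      change G _ * H _ = G _ * H _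
      rw [hG.2.2, hH.2.2]⟩

/-- products -/
theorem mm_prod {E : Type} [DecidableEq E] (G : E → (V → ℤˣ) → ℝ)
    (h : ∀ e, mm_C θ P (G e) ∨ mm_H θ (G e)) (s : Finset E) :
    ∃ F H : (V → ℤˣ) → ℝ, mm_C θ P F ∧ mm_H θ H ∧ ∀ σ, ∏ e ∈ s, G e σ = F σ * H σ := by
  induction s using Finset.induction_on with
  | empty => exact ⟨fun _ => 1, fun _ => 1, mm_const zero_le_one,
      ⟨fun _ => zero_le_one, fun _ _ => rfl, fun _ _ => rfl⟩, fun σ => by simp⟩
  | insert a s ha ih =>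
    obtain ⟨F, H, hF, hH, hFH⟩ := ih
    rcases h a with h1 | h1
    · refine ⟨_, _, mm_mul h1 hF, hH, fun σ => ?_⟩
      rw [Finset.prod_insert ha, hFH]
      ring
    · refine ⟨_, _, hF, mm_H_mul h1 hH, fun σ => ?_⟩
      rw [Finset.prod_insert ha, hFH]
      ring

end

theorem mm_bond {E : Type} (ends : E → Sym2 V) (σ : V → ℤˣ) (e : E) (a b : V)
    (h : ends e = s(a, b)) : bond ends σ e = mm_s σ a * mm_s σ b := by
  unfold bond mm_s
  rw [h, Sym2.map_mk, Sym2.mul_mk]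
  push_cast
  rfl

theorem mm_vals (θ : V → V) (σ : V → ℤˣ) (a b : V) :
    (mm_p θ σ a * mm_p θ σ b = 0 ∨ mm_p θ σ a * mm_p θ σ b = 4 ∨
      mm_p θ σ a * mm_p θ σ b = -4) ∧
    (mm_q θ σ a * mm_q θ σ b = 0 ∨ mm_q θ σ a * mm_q θ σ b = 4 ∨
      mm_q θ σ a * mm_q θ σ b = -4) := by
  unfold mm_p mm_q
  rcases mm_s_sq σ a with h1 | h1 <;> rcases mm_s_sq σ b with h2 | h2 <;>
    rcases mm_s_sq σ (θ a) with h3 | h3 <;> rcases mm_s_sq σ (θ b) with h4 | h4 <;>
    rw [h1, h2, h3, h4] <;> norm_num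

theorem st_MMSA (hFKS : ST_FKS) : ST_MMSA := by
  intro V _ _ E _ _ ends β θ θE P hβ hθ hθE hends hP1 hP2 hE x hx y hy
  have num : ∀ a b : V, ∑ T : Finset E, (cn ends a b).indicator (fkw ends β) T =
      Real.exp (β * (Finset.univ \ ∅ : Finset E).card) * Zs ends β ∅ (two a b) := by
    intro a b
    rw [← hFKS V E ends β ∅ a b hβ]
    have : ef (∅ : Finset E) = Set.univ := by
      ext T
      simp [ef]
    rw [this, Set.univ_inter]
  unfold fkP
  rw [num, num]
  refine div_le_div_of_nonneg_right (mul_le_mul_of_nonneg_left ?_ (Real.exp_pos _).le) ?_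
  swap
  · refine Finset.sum_nonneg fun T _ => ?_
    unfold fkw
    have : (1 : ℝ) ≤ Real.exp (2 * β) := Real.one_le_exp (by linarith)
    exact mul_nonneg (pow_nonneg (by linarith) _) (pow_nonneg (by norm_num) _)
  unfold Zs
  simp only [Finset.sdiff_empty]
  -- the bonds under the reflection
  have hbond : ∀ (σ : V → ℤˣ) (e : E), bond ends (fun v => σ (θ v)) e = bond ends σ (θE e) := by
    intro σ e
    unfold bond
    rw [hends, Sym2.map_map]
    rfl
  have hreE : ∀ f : E → ℝ, ∑ e, f (θE e) = ∑ e, f e := fun f =>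
    Equiv.sum_comp (⟨θE, θE, hθE, hθE⟩ : E ≃ E) f
  obtain ⟨w, hw⟩ : ∃ w : (V → ℤˣ) → ℝ, w = fun σ => ∏ e, Real.exp (β * bond ends σ e) :=
    ⟨_, rfl⟩
  have hw1 : ∀ σ, w σ = Real.exp (∑ e, β * bond ends σ e) := by
    intro σ
    rw [hw, Real.exp_sum]
  have hwθ : ∀ σ : V → ℤˣ, w (fun v => σ (θ v)) = w σ := by
    intro σ
    rw [hw1, hw1]
    congr 1
    rw [← hreE (fun e => β * bond ends σ e)]
    exact Finset.sum_congr rfl fun e _ => by rw [hbond]
  have hw2 : ∀ σ, w σ = ∏ e, Real.exp (β / 2 * (bond ends σ e + bond ends σ (θE e))) := by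
    intro σ
    rw [hw1, ← Real.exp_sum]
    congr 1
    have h1 := hreE (fun e => β * bond ends σ e)
    have h2 : ∑ e, β / 2 * (bond ends σ e + bond ends σ (θE e)) =
        (∑ e, β * bond ends σ e + ∑ e, β * bond ends σ (θE e)) / 2 := by
      rw [← Finset.sum_add_distrib, Finset.sum_div]
      exact Finset.sum_congr rfl fun e _ => by ring
    rw [h2, h1]
    ring
  have hends' : ∀ (e : E) (a b : V), ends e = s(a, b) → ends (θE e) = s(θ a, θ b) := by
    intro e a b h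
    rw [hends, h, Sym2.map_mk]
  have hcl : ∀ e, mm_C θ P (fun σ => Real.exp (β / 2 * (bond ends σ e + bond ends σ (θE e)))) ∨
      mm_H θ (fun σ => Real.exp (β / 2 * (bond ends σ e + bond ends σ (θE e)))) := by
    intro e
    obtain ⟨⟨a, b⟩, hab⟩ := Quot.exists_rep (ends e)
    have hab : ends e = s(a, b) := hab.symm
    have main : ∀ a' ∈ P, ∀ b' ∈ P, (∀ σ : V → ℤˣ, bond ends σ e + bond ends σ (θE e) =
        mm_s σ a' * mm_s σ b' + mm_s σ (θ a') * mm_s σ (θ b')) →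
        mm_C θ P (fun σ => Real.exp (β / 2 * (bond ends σ e + bond ends σ (θE e)))) := by
      intro a' ha' b' hb' h
      refine mm_congr (mm_mul
        (mm_expC (c := β / 4) (by linarith) (mm_mul (mm_pC ha') (mm_pC hb'))
          (fun σ => (mm_vals θ σ a' b').1))
        (mm_expC (c := β / 4) (by linarith) (mm_mul (mm_qC ha') (mm_qC hb'))
          (fun σ => (mm_vals θ σ a' b').2))) ?_
      intro σ
      rw [h, ← Real.exp_add]
      congr 1
      unfold mm_p mm_q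
      ring
    rcases hE e with h | h | ⟨v, h⟩
    · left
      refine main a (h a ?_) b (h b ?_) ?_
      · rw [hab]; exact Sym2.mem_mk_left a b
      · rw [hab]; exact Sym2.mem_mk_right a b
      · intro σ
        rw [mm_bond ends σ e a b hab, mm_bond ends σ (θE e) _ _ (hends' e a b hab)]
    · left
      refine main (θ a) (h a ?_) (θ b) (h b ?_) ?_
      · rw [hab]; exact Sym2.mem_mk_left a b
      · rw [hab]; exact Sym2.mem_mk_right a b
      · intro σ
        rw [mm_bond ends σ e a b hab, mm_bond ends σ (θE e) _ _ (hends' e a b hab), hθ, hθ]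
        ring
    · right
      have h1 : ∀ σ : V → ℤˣ, bond ends σ e + bond ends σ (θE e) =
          2 * (mm_s σ v * mm_s σ (θ v)) := by
        intro σ
        rw [mm_bond ends σ e _ _ h, mm_bond ends σ (θE e) _ _ (hends' e _ _ h), hθ]
        ring
      refine ⟨fun σ => (Real.exp_pos _).le, fun u σ => ?_, fun u σ => ?_⟩
      · simp only [h1]
        congr 2
        rw [mm_flip_s, mm_flip_s]
        by_cases hu : v = u ∨ v = θ u
        · rw [if_pos hu, if_pos ((mm_mem hθ v u).2 hu)]; ring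
        · rw [if_neg hu, if_neg (fun hc => hu ((mm_mem hθ v u).1 hc))]
      · simp only [h1]
        congr 2
        rw [mm_swap_s, mm_swap_s]
        by_cases hu : v = u ∨ v = θ u
        · rw [if_pos hu, if_pos ((mm_mem hθ v u).2 hu), hθ]; ring
        · rw [if_neg hu, if_neg (fun hc => hu ((mm_mem hθ v u).1 hc))]
  obtain ⟨F, H, hF, hH, hFH⟩ := mm_prod _ hcl Finset.univ
  have hpos := mm_pos hθ hP2 (mm_mul (mm_mul (mm_qC hx) (mm_qC hy)) hF) hH
  have hwF : ∀ σ, w σ = F σ * H σ := fun σ => (hw2 σ).trans (hFH σ)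
  have hsym : ∀ a b : V, ∑ σ, two a b σ * w σ = ∑ σ, two (θ a) (θ b) σ * w σ := by
    intro a b
    rw [← mm_sum_inv (fun σ v => σ (θ v)) (fun σ => by funext v; simp [hθ])
      (fun σ => two a b σ * w σ)]
    refine Finset.sum_congr rfl fun σ _ => ?_
    rw [hwθ]
    rfl
  have e1 := hsym x y
  have e2 := hsym x (θ y)
  rw [hθ] at e2
  have hfin : ∑ σ, mm_q θ σ x * mm_q θ σ y * F σ * H σ =
      (∑ σ, two x y σ * w σ + ∑ σ, two (θ x) (θ y) σ * w σ) -
        (∑ σ, two x (θ y) σ * w σ + ∑ σ, two (θ x) y σ * w σ) := by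
    rw [← Finset.sum_add_distrib, ← Finset.sum_add_distrib, ← Finset.sum_sub_distrib]
    refine Finset.sum_congr rfl fun σ _ => ?_
    rw [hwF σ, mm_two, mm_two, mm_two, mm_two]
    unfold mm_q
    ring
  rw [hfin] at hpos
  have g1 : ∀ f : (V → ℤˣ) → ℝ, ∑ σ, f σ * ∏ e, Real.exp (β * bond ends σ e) =
      ∑ σ, f σ * w σ := by
    intro f
    rw [hw]
  rw [g1, g1]
  linarith

end IIC
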