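import Pool.Agent.Helper20.IIC.Stmts

set_option autoImplicit false

/-! # (SUP) the number of clusters is supermodular -/

namespace IIC

/-- functions which are constant along the edges of `X` -/
def sup_U {V E : Type} (ends : E → Sym2 V) (X : Set E) : Submodule ℚ (V → ℚ) where
  carrier := {f | ∀ x y, Step ends X x y → f x = f y}
  add_mem' := by
    intro f g hf hg x y h
    simp only [Pi.add_apply]
    rw [hf x y h, hg x y h]
  zero_mem' := by
    intro x y _
    rfl
  smul_mem' := by
    intro c f hf x y h
    simp only [Pi.smul_apply]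
    rw [hf x y h]

/-- functions on the clusters -/
def sup_eqv {V E : Type} (ends : E → Sym2 V) (X : Set E) :
    (Quot (Step ends X) → ℚ) ≃ₗ[ℚ] sup_U ends X where
  toFun g := ⟨fun x => g (Quot.mk _ x), by
    intro x y h
    exact congrArg g (Quot.sound h)⟩
  map_add' _ _ := rfl
  map_smul' _ _ := rfl
  invFun f := Quot.lift f.1 f.2
  left_inv g := by
    funext x
    induction x using Quot.ind
    rfl
  right_inv f := rfl

theorem sup_finrank {V E : Type} [Finite V] (ends : E → Sym2 V) (X : Set E) :
    Module.finrank ℚ (sup_U ends X) = ncl ends X := by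
  have : Fintype (Quot (Step ends X)) := Fintype.ofFinite _
  rw [← LinearEquiv.finrank_eq (sup_eqv ends X), Module.finrank_fintype_fun_eq_card]
  unfold ncl
  rw [Nat.card_eq_fintype_card]

theorem st_SUP : ST_SUP := by
  intro V _ E ends S T
  have : Fintype V := Fintype.ofFinite V
  rw [← sup_finrank, ← sup_finrank, ← sup_finrank, ← sup_finrank]
  have h1 : sup_U ends (S ∪ T) = sup_U ends S ⊓ sup_U ends T := by
    ext f
    constructor
    · intro h
      refine ⟨fun x y hs => h x y ?_, fun x y hs => h x y ?_⟩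
      · obtain ⟨e, he, hxy⟩ := hs
        exact ⟨e, Or.inl he, hxy⟩
      · obtain ⟨e, he, hxy⟩ := hs
        exact ⟨e, Or.inr he, hxy⟩
    · rintro ⟨h, h'⟩ x y ⟨e, he, hxy⟩
      rcases he with he | he
      · exact h x y ⟨e, he, hxy⟩
      · exact h' x y ⟨e, he, hxy⟩
  have h2 : sup_U ends S ⊔ sup_U ends T ≤ sup_U ends (S ∩ T) := by
    refine sup_le ?_ ?_
    · rintro f h x y ⟨e, he, hxy⟩
      exact h x y ⟨e, he.1, hxy⟩
    · rintro f h x y ⟨e, he, hxy⟩
      exact h x y ⟨e, he.2, hxy⟩
  have h3 := Submodule.finrank_sup_add_finrank_inf_eq (sup_U ends S) (sup_U ends T)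
  have h4 := Submodule.finrank_mono h2
  rw [h1]
  omega

end IIC
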